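import Pool.Agent.H.MP_28492a_gt.Main

set_option autoImplicit false

namespace Pool.Agent.Results.MP_28492a_gt.Cancel

open Pool.Agent.H.MP_28492a_gt

theorem result (n : ℕ) (hn : 1 ≤ n) (k : ℕ) (hk : 1 ≤ k) (A B : Set (EuclideanSpace ℝ (Fin n)))
    (hA : Body A) (hB : Body B)
    (f g : Fin k → EuclideanSpace ℝ (Fin n) ≃ᵢ EuclideanSpace ℝ (Fin n))
    (hf : Pairwise fun i j => Disjoint (f i '' A) (f j '' A))
    (hg : Pairwise fun i j => Disjoint (g i '' B) (g j '' B))
    (h : Equi (Join fun i => f i '' A) (Join fun i => g i '' B)) : Equi A B :=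
  main hn hk hA hB f g hf hg h

end Pool.Agent.Results.MP_28492a_gt.Cancel
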